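import Pool.Agent.W639.RB.Defs

/-!
# An outside for knotoids
-/

set_option autoImplicit false

namespace Pool.Agent.Helper52_KD

open Pool.Agent.H891R2.Jones Pool.Agent.W639.RB

/-- The outside of a box through which four strands run upwards.  The upper ends of the strands `0`,
`2`, `3` are joined to the lower ends of the strands `1`, `2`, `3` by three nested arcs without
crossings, which run around the right side of the box (the arc of the strand `0` is the outermost
one).  The lower end of the strand `0` (the marked point `0`, the tail) and the upper end of the
strand `1` (the marked point `4`, the head) are free. -/
def snail : Outer 4 where
  P := Fin 5
  arcs := []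
  crossings := []
  lower := ![0, 1, 2, 3]
  upper := ![1, 4, 2, 3]
  up := fun _ => true

end Pool.Agent.Helper52_KD
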