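import Pool.Agent.Helper52_CV.Loc

/-!
# The part of a Laurent polynomial with the exponents divisible by four
-/

set_option autoImplicit false

namespace Pool.Agent.Helper52_KD

open Finset LaurentPolynomial Pool.Agent.Helper52_CV

theorem coeff_T_mul (i k : ℤ) (f : ℤ[T;T⁻¹]) : (T i * f).coeff k = f.coeff (k - i) := by
  rw [T, AddMonoidAlgebra.coeff_single_mul_apply, one_mul, neg_add_eq_sub]

/-- the part with the exponents divisible by four -/
noncomputable def pr (f : ℤ[T;T⁻¹]) : ℤ[T;T⁻¹] :=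
  AddMonoidAlgebra.ofCoeff (f.coeff.filter (fun n => (4 : ℤ) ∣ n))

theorem pr_coeff (f : ℤ[T;T⁻¹]) (n : ℤ) : (pr f).coeff n = if (4 : ℤ) ∣ n then f.coeff n else 0 := by
  unfold pr
  rw [AddMonoidAlgebra.coeff_ofCoeff, Finsupp.filter_apply]

theorem pr_add (f g : ℤ[T;T⁻¹]) : pr (f + g) = pr f + pr g := by
  apply LaurentPolynomial.ext
  intro n
  rw [AddMonoidAlgebra.coeff_add, Finsupp.add_apply, pr_coeff, pr_coeff, pr_coeff,
    AddMonoidAlgebra.coeff_add, Finsupp.add_apply]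
  split_ifs
  · rfl
  · rw [add_zero]

theorem pr_neg (f : ℤ[T;T⁻¹]) : pr (-f) = -pr f := by
  apply LaurentPolynomial.ext
  intro n
  rw [AddMonoidAlgebra.coeff_neg, Finsupp.neg_apply, pr_coeff, pr_coeff,
    AddMonoidAlgebra.coeff_neg, Finsupp.neg_apply]
  split_ifs
  · rfl
  · rw [neg_zero]

theorem pr_T_mul (m : ℤ) (f : ℤ[T;T⁻¹]) : pr (T (4 * m) * f) = T (4 * m) * pr f := by
  apply LaurentPolynomial.ext
  intro n
  rw [coeff_T_mul, pr_coeff, pr_coeff, coeff_T_mul]
  have : (4 : ℤ) ∣ n ↔ (4 : ℤ) ∣ n - 4 * m := by omega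
  simp only [this]

/-- the elements with which the projection commutes -/
def Lin (x : ℤ[T;T⁻¹]) : Prop := ∀ g, pr (x * g) = x * pr g

theorem Lin.mul {x y : ℤ[T;T⁻¹]} (hx : Lin x) (hy : Lin y) : Lin (x * y) := fun g => by
  rw [mul_assoc, hx, hy, mul_assoc]

theorem Lin.add {x y : ℤ[T;T⁻¹]} (hx : Lin x) (hy : Lin y) : Lin (x + y) := fun g => by
  rw [add_mul, pr_add, hx, hy, add_mul]

theorem Lin.neg {x : ℤ[T;T⁻¹]} (hx : Lin x) : Lin (-x) := fun g => by
  rw [neg_mul, pr_neg, hx, neg_mul]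

theorem Lin.one : Lin 1 := fun g => by rw [one_mul, one_mul]

theorem Lin.zero : Lin 0 := fun g => by
  rw [zero_mul, zero_mul]
  have := pr_add 0 0
  rw [add_zero] at this
  exact left_eq_add.1 this

theorem Lin.pow {x : ℤ[T;T⁻¹]} (hx : Lin x) (n : ℕ) : Lin (x ^ n) := by
  induction n with
  | zero => rw [pow_zero]; exact Lin.one
  | succ n ih => rw [pow_succ]; exact ih.mul hx

theorem Lin.sum {x : ℕ → ℤ[T;T⁻¹]} (hx : ∀ i, Lin (x i)) (n : ℕ) : Lin (∑ i ∈ range n, x i) := by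
  induction n with
  | zero => rw [sum_range_zero]; exact Lin.zero
  | succ n ih => rw [sum_range_succ]; exact ih.add (hx n)

theorem lin_xx (s : ℕ) : Lin (xx s) := by
  have h4 : Lin ((T 1 : ℤ[T;T⁻¹]) ^ 4) := by
    intro g
    have := pr_T_mul 1 g
    rw [T_pow]
    exact this
  have h8 : Lin ((T 1 : ℤ[T;T⁻¹]) ^ 8) := by
    have : (T 1 : ℤ[T;T⁻¹]) ^ 8 = (T 1 ^ 4) ^ 2 := by ring
    rw [this]; exact h4.pow 2
  have h12 : Lin ((T 1 : ℤ[T;T⁻¹]) ^ 12) := by
    have : (T 1 : ℤ[T;T⁻¹]) ^ 12 = (T 1 ^ 4) ^ 3 := by ring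
    rw [this]; exact h4.pow 3
  unfold xx cq
  rw [sub_eq_add_neg]
  exact (h8.add h4.neg).mul (Lin.sum (fun i => h12.pow i) _)

theorem pr_one : pr 1 = 1 := by
  apply LaurentPolynomial.ext
  intro n
  rw [pr_coeff, ← T_zero, T_apply]
  by_cases h : (0 : ℤ) = n
  · subst h
    simp
  · rw [if_neg h]
    split_ifs <;> rfl

theorem e8_pr (f : ℤ[T;T⁻¹]) : (e8 (pr f)).im = 0 := by
  induction f using LaurentPolynomial.induction_on' with
  | add f g hf hg => rw [pr_add, map_add, Complex.add_im, hf, hg, add_zero]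
  | C_mul_T n a =>
    by_cases h : (4 : ℤ) ∣ n
    · have h1 : pr (C a * T n) = C a * T n := by
        apply LaurentPolynomial.ext
        intro k
        rw [pr_coeff]
        split_ifs with hk
        · rfl
        · have : k ≠ n := fun e => hk (e ▸ h)
          rw [mul_comm, coeff_T_mul, C_apply, if_neg (by omega)]
      obtain ⟨m, rfl⟩ := h
      rw [h1, map_mul, e8_T, zpow_mul]
      have h2 : ((z8 : ℂ) ^ (4 : ℤ)) = -1 := by
        have := z8_four
        exact_mod_cast this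
      have h3 : e8 (C a) = (a : ℂ) := by
        have : (C a : ℤ[T;T⁻¹]) = ((a : ℤ) : ℤ[T;T⁻¹]) := by simp
        rw [this, map_intCast]
      rw [h2, h3]
      rcases Int.even_or_odd m with hm | hm
      · rw [hm.neg_one_zpow]; simp
      · rw [hm.neg_one_zpow]; simp
    · have h1 : pr (C a * T n) = 0 := by
        apply LaurentPolynomial.ext
        intro k
        rw [pr_coeff]
        split_ifs with hk
        · have : k ≠ n := fun e => h (e ▸ hk)
          rw [mul_comm, coeff_T_mul, C_apply, if_neg (by omega)]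
          rfl
        · rfl
      rw [h1, map_zero]
      rfl

/-- **the criterion** -/
theorem exists_coeff {f x G : ℤ[T;T⁻¹]} (hx : Lin x) (hx0 : x ≠ 0) (hf : f = 1 + x * G)
    (hG : (e8 G).im ≠ 0) : ∃ n : ℤ, ¬ ((4 : ℤ) ∣ n) ∧ f.coeff n ≠ 0 := by
  by_contra hcon
  push Not at hcon
  have h1 : pr f = f := by
    apply LaurentPolynomial.ext
    intro n
    rw [pr_coeff]
    split_ifs with h
    · rfl
    · exact (hcon n h).symm
  have h2 : pr f = 1 + x * pr G := by rw [hf, pr_add, pr_one, hx]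
  have h3 : x * (pr G - G) = 0 := by
    rw [mul_sub, sub_eq_zero]
    have := h2.symm.trans (h1.trans hf)
    exact add_left_cancel this
  rcases mul_eq_zero.1 h3 with h4 | h4
  · exact hx0 h4
  · rw [sub_eq_zero] at h4
    apply hG
    rw [← h4]
    exact e8_pr G

end Pool.Agent.Helper52_KD
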