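import Pool.Agent.Helper52_CV.Loc
import Pool.Agent.Helper52_KD.Defs

/-!
# The values of the functional of the outside
-/

set_option autoImplicit false

namespace Pool.Agent.Helper52_KD

open Finset LaurentPolynomial Pool.Agent.H891R2.Jones Pool.Agent.W639.RB Pool.Agent.Y463.SK
  Pool.Agent.Y463.MP Pool.Agent.Helper52_CV

/-- the functional -/
noncomputable abbrev SN : TLZ 4 →ₗ[ℤ[T;T⁻¹]] ℤ[T;T⁻¹] := PhiS (by norm_num) snail

/-- the matrix entries -/
noncomputable def en (N : {N : ℕ // 3 ≤ N}) (b : TLZ 4) (x y : Fin 4 → Fin N.1) : ℂ :=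
  (b.1 N) (fun x y => ind (x = y)) x y

theorem sum5 {N : ℕ} (f : (Fin 5 → Fin N) → ℂ) :
    ∑ x, f x = ∑ a, ∑ b, ∑ c, ∑ d, ∑ e, f ![a, b, c, d, e] := by
  have h : Function.Bijective
      (fun p : Fin N × Fin N × Fin N × Fin N × Fin N =>
        (![p.1, p.2.1, p.2.2.1, p.2.2.2.1, p.2.2.2.2] : Fin 5 → Fin N)) := by
    constructor
    · rintro ⟨a, b, c, d, e⟩ ⟨a', b', c', d', e'⟩ h
      have h0 := congrFun h 0
      have h1 := congrFun h 1
      have h2 := congrFun h 2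
      have h3 := congrFun h 3
      have h4 := congrFun h 4
      simp at h0 h1 h2 h3 h4
      simp [h0, h1, h2, h3, h4]
    · intro x
      refine ⟨(x 0, x 1, x 2, x 3, x 4), ?_⟩
      funext j
      fin_cases j <;> rfl
  rw [← Function.Bijective.sum_comp h f, Fintype.sum_prod_type]
  refine sum_congr rfl fun a _ => ?_
  rw [Fintype.sum_prod_type]
  refine sum_congr rfl fun a _ => ?_
  rw [Fintype.sum_prod_type]
  exact sum_congr rfl fun a _ => Fintype.sum_prod_type _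

theorem SN_spec (b : TLZ 4) (N : {N : ℕ // 3 ≤ N}) : (N.1 : ℂ) * ev N.1 N.2 (SN b) =
    ∑ x, ∑ y, ∑ z, ∑ w, ∑ v, en N b ![x, y, z, w] ![y, v, z, w] := by
  rw [PhiS_spec]
  unfold Zg
  have h : ∀ col : Fin 5 → Fin N.1, (1 * 1 : ℂ) * (b.1 N) (fun x y => ind (x = y))
      (fun j => col (snail.lower j)) (fun j => col (snail.upper j)) =
      en N b (fun j => col (snail.lower j)) (fun j => col (snail.upper j)) := fun col => by
    rw [one_mul, one_mul]; rfl
  calc _ = ∑ col : Fin 5 → Fin N.1, en N b (fun j => col (snail.lower j))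
        (fun j => col (snail.upper j)) := sum_congr rfl fun col _ => h col
    _ = _ := by
      rw [sum5]
      refine sum_congr rfl fun a _ => sum_congr rfl fun b _ => sum_congr rfl fun c _ =>
        sum_congr rfl fun d _ => sum_congr rfl fun e _ => ?_
      congr 1
      · funext j; fin_cases j <;> rfl
      · funext j; fin_cases j <;> rfl

variable (N : {N : ℕ // 3 ≤ N}) (b : TLZ 4)

theorem en_one (x y z w x' y' z' w' : Fin N.1) : en N 1 ![x, y, z, w] ![x', y', z', w'] =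
    if x = x' ∧ y = y' ∧ z = z' ∧ w = w' then 1 else 0 := ind_vec _ _ _ _ _ _ _ _

theorem en_0 (x y z w : Fin N.1) (t : Fin 4 → Fin N.1) : en N (EZ 4 0 * b) ![x, y, z, w] t =
    if x = y then ∑ e, en N b ![e, e, z, w] t else 0 := by
  classical
  show ee 4 N.1 ((Fin 4 → Fin N.1) → ℂ) 0 ((b.1 N) (fun x y => ind (x = y))) ![x, y, z, w] t = _
  rw [e0_apply]
  by_cases hxy : x = y
  · rw [if_pos hxy, if_pos hxy, Finset.sum_apply]
    rfl
  · rw [if_neg hxy, if_neg hxy]; rfl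

theorem en_1 (x y z w : Fin N.1) (t : Fin 4 → Fin N.1) : en N (EZ 4 1 * b) ![x, y, z, w] t =
    if y = z then ∑ e, en N b ![x, e, e, w] t else 0 := by
  classical
  show ee 4 N.1 ((Fin 4 → Fin N.1) → ℂ) 1 ((b.1 N) (fun x y => ind (x = y))) ![x, y, z, w] t = _
  rw [e1_apply]
  by_cases hxy : y = z
  · rw [if_pos hxy, if_pos hxy, Finset.sum_apply]
    rfl
  · rw [if_neg hxy, if_neg hxy]; rfl

theorem en_2 (x y z w : Fin N.1) (t : Fin 4 → Fin N.1) : en N (EZ 4 2 * b) ![x, y, z, w] t =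
    if z = w then ∑ e, en N b ![x, y, e, e] t else 0 := by
  classical
  show ee 4 N.1 ((Fin 4 → Fin N.1) → ℂ) 2 ((b.1 N) (fun x y => ind (x = y))) ![x, y, z, w] t = _
  rw [e2_apply]
  by_cases hxy : z = w
  · rw [if_pos hxy, if_pos hxy, Finset.sum_apply]
    rfl
  · rw [if_neg hxy, if_neg hxy]; rfl

theorem SN_one : SN 1 = dl ^ 2 := by
  apply ev_unique
  intro N
  rw [SN_spec, map_pow, ev_dl]
  simp only [en_one]
  simp [ite_and, pow_two]

theorem SN_E0 : SN (EZ 4 0) = dl ^ 2 := by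
  apply ev_unique
  intro N
  rw [SN_spec, map_pow, ev_dl, ← mul_one (EZ 4 0)]
  simp only [en_one, en_0, en_1, en_2]
  simp [ite_and, pow_two]

theorem SN_E1 : SN (EZ 4 1) = dl := by
  apply ev_unique
  intro N
  rw [SN_spec, ev_dl, ← mul_one (EZ 4 1)]
  simp only [en_one, en_0, en_1, en_2]
  simp [ite_and]

theorem SN_E2 : SN (EZ 4 2) = dl := by
  apply ev_unique
  intro N
  rw [SN_spec, ev_dl, ← mul_one (EZ 4 2)]
  simp only [en_one, en_0, en_1, en_2]
  simp [ite_and]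

theorem SN_E01 : SN (EZ 4 0 * EZ 4 1) = dl := by
  apply ev_unique
  intro N
  rw [SN_spec, ev_dl, ← mul_one (EZ 4 1)]
  simp only [en_one, en_0, en_1, en_2]
  simp [ite_and]

theorem SN_E10 : SN (EZ 4 1 * EZ 4 0) = dl := by
  apply ev_unique
  intro N
  rw [SN_spec, ev_dl, ← mul_one (EZ 4 0)]
  simp only [en_one, en_0, en_1, en_2]
  simp [ite_and]

theorem SN_E12 : SN (EZ 4 1 * EZ 4 2) = 1 := by
  apply ev_unique
  intro N
  rw [SN_spec, map_one, ← mul_one (EZ 4 2)]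
  simp only [en_one, en_0, en_1, en_2]
  simp [ite_and]

theorem SN_E21 : SN (EZ 4 2 * EZ 4 1) = 1 := by
  apply ev_unique
  intro N
  rw [SN_spec, map_one, ← mul_one (EZ 4 1)]
  simp only [en_one, en_0, en_1, en_2]
  simp [ite_and]

theorem SN_E02 : SN (EZ 4 0 * EZ 4 2) = dl := by
  apply ev_unique
  intro N
  rw [SN_spec, ev_dl, ← mul_one (EZ 4 2)]
  simp only [en_one, en_0, en_1, en_2]
  simp [ite_and]

theorem SN_E012 : SN (EZ 4 0 * (EZ 4 1 * EZ 4 2)) = 1 := by
  apply ev_unique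
  intro N
  rw [SN_spec, map_one, ← mul_one (EZ 4 2)]
  simp only [en_one, en_0, en_1, en_2]
  simp [ite_and]

theorem SN_E210 : SN (EZ 4 2 * (EZ 4 1 * EZ 4 0)) = 1 := by
  apply ev_unique
  intro N
  rw [SN_spec, map_one, ← mul_one (EZ 4 0)]
  simp only [en_one, en_0, en_1, en_2]
  simp [ite_and]

theorem SN_E102 : SN (EZ 4 1 * (EZ 4 0 * EZ 4 2)) = 1 := by
  apply ev_unique
  intro N
  rw [SN_spec, map_one, ← mul_one (EZ 4 2)]
  simp only [en_one, en_0, en_1, en_2]
  simp [ite_and]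

theorem SN_E021 : SN (EZ 4 0 * (EZ 4 2 * EZ 4 1)) = 1 := by
  apply ev_unique
  intro N
  rw [SN_spec, map_one, ← mul_one (EZ 4 1)]
  simp only [en_one, en_0, en_1, en_2]
  simp [ite_and]

theorem SN_E1021 : SN (EZ 4 1 * (EZ 4 0 * (EZ 4 2 * EZ 4 1))) = 1 := by
  have h : EZ 4 1 * (EZ 4 0 * (EZ 4 2 * EZ 4 1)) = EZ 4 1 * (EZ 4 0 * (EZ 4 2 * (EZ 4 1 * 1))) := by
    rw [mul_one]
  rw [h]
  apply ev_unique
  intro N
  rw [SN_spec, map_one]
  simp only [en_one, en_0, en_1, en_2]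
  simp [ite_and]

/-! ### the specialisation at `t = -1` -/

attribute [local instance] algE8

/-- the functional at `t = -1` -/
noncomputable def Qs : T8 →ₗ[ℂ] ℂ := phiL ℂ (by norm_num : 0 < 4) snail

theorem Qs_rd (z : TLZ 4) : Qs (rd z) = e8 (SN z) := phiL_inc ℂ (by norm_num) snail z

section alg

variable {B : Type*} [Ring B] [Algebra ℂ B] {a b c : B}

theorem TLz.Pc (h : TLz a b c) : PZ a b * c = c - a * (b * c) - b * (a * c) := by
  unfold PZ
  rw [sub_mul, sub_mul, one_mul, mul_assoc, mul_assoc]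

theorem TLz.cP (h : TLz a b c) : c * PZ a b = c - a * (c * b) - c * (b * a) := by
  unfold PZ
  rw [mul_sub, mul_sub, mul_one, ← mul_assoc c a b, ← h.ac, mul_assoc]

theorem TLz.bcP (h : TLz a b c) : b * (c * PZ a b) = b * c - b * (a * (c * b)) - b * a := by
  rw [TLz.cP h, mul_sub, mul_sub]
  congr 1
  rw [← mul_assoc, ← mul_assoc, h.bcb]

theorem TLz.Pcb (h : TLz a b c) : PZ a b * (c * b) = c * b - a * b - b * (a * (c * b)) := by
  rw [← mul_assoc, TLz.Pc h, sub_mul, sub_mul]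
  congr 1
  · congr 1
    rw [mul_assoc, h.bcb]
  · rw [mul_assoc, mul_assoc]

theorem TLz.PcP (h : TLz a b c) : PZ a b * (c * PZ a b) = c + a - a * (b * c) - c * (b * a) := by
  have h1 : PZ a b * (a * (c * b)) = 0 := by rw [← mul_assoc, h.Pa, zero_mul]
  have h2 : PZ a b * (c * (b * a)) = c * (b * a) - a - b * (a * c) := by
    unfold PZ
    rw [sub_mul, sub_mul, one_mul]
    congr 1
    · congr 1
      calc a * b * (c * (b * a)) = a * (b * c * b) * a := by simp only [mul_assoc]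
        _ = a := by rw [h.bcb, h.aba]
    · calc b * a * (c * (b * a)) = b * (a * c) * (b * a) := by simp only [mul_assoc]
        _ = b * (c * a) * (b * a) := by rw [h.ac]
        _ = b * c * (a * b * a) := by simp only [mul_assoc]
        _ = b * (a * c) := by rw [h.aba, mul_assoc, h.ac]
  rw [TLz.cP h, mul_sub, mul_sub, h1, h2, TLz.Pc h]
  abel

/-- the values which are needed -/
structure Vals (Ψ : B →ₗ[ℂ] ℂ) (a b c : B) : Prop where
  va : Ψ a = 0
  vc : Ψ c = 0
  vac : Ψ (a * c) = 0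
  vab : Ψ (a * b) = 0
  vba : Ψ (b * a) = 0
  vbc : Ψ (b * c) = 1
  vcb : Ψ (c * b) = 1
  vabc : Ψ (a * (b * c)) = 1
  vcba : Ψ (c * (b * a)) = 1
  vbac : Ψ (b * (a * c)) = 1
  vacb : Ψ (a * (c * b)) = 1
  vbacb : Ψ (b * (a * (c * b))) = 1

theorem TLz.value (h : TLz a b c) {Ψ : B →ₗ[ℂ] ℂ} (hv : Vals Ψ a b c) {A A' : ℂ}
    (hA : A * A' = 1) (hA4 : A ^ 4 = -1) (p β γ u β' : ℂ) :
    Ψ ((A • (1 : B) + A' • c) * (A • (1 : B) + A' • b) *
      (Gm b c 1 p β γ u * PZ a b * Gm b c 1 u β' (-γ) p * PZ a b -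
        PZ a b * (Gm b c 1 p β γ u * PZ a b * Gm b c 1 u β' (-γ) p))) = 2 * γ * A ^ 2 := by
  have hA2 : A' ^ 2 = -A ^ 2 := by
    have : A' ^ 2 * A ^ 4 = A ^ 2 := by
      have : A' ^ 2 * A ^ 4 = (A * A') ^ 2 * A ^ 2 := by ring
      rw [this, hA]; ring
    rw [hA4] at this
    linear_combination -this
  have hc := h.comm_eq p β γ u β'
  have hc' : Gm b c 1 p β γ u * PZ a b * Gm b c 1 u β' (-γ) p * PZ a b -
      PZ a b * (Gm b c 1 p β γ u * PZ a b * Gm b c 1 u β' (-γ) p) =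
      γ • (PZ a b * c + c * PZ a b) - (p - 1) • (PZ a b * (c * b) - b * (c * PZ a b)) -
        (2 * γ) • (PZ a b * (c * PZ a b)) := by
    rw [← neg_sub, hc]
    module
  rw [hc']
  have v1 : Ψ (PZ a b * c) = -2 := by
    rw [TLz.Pc h, map_sub, map_sub, hv.vc, hv.vabc, hv.vbac]; norm_num
  have v2 : Ψ (c * PZ a b) = -2 := by
    rw [TLz.cP h, map_sub, map_sub, hv.vc, hv.vacb, hv.vcba]; norm_num
  have v3 : Ψ (b * (c * PZ a b)) = 0 := by
    rw [TLz.bcP h, map_sub, map_sub, hv.vbc, hv.vbacb, hv.vba]; norm_num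
  have v4 : Ψ (PZ a b * (c * b)) = 0 := by
    rw [TLz.Pcb h, map_sub, map_sub, hv.vcb, hv.vab, hv.vbacb]; norm_num
  have v5 : Ψ (PZ a b * (c * PZ a b)) = -2 := by
    rw [TLz.PcP h, map_sub, map_sub, map_add, hv.vc, hv.va, hv.vabc, hv.vcba]; norm_num
  set P := PZ a b with hP
  have bs : (A • (1 : B) + A' • b) * P = A • P := by
    rw [add_mul, smul_mul_assoc, smul_mul_assoc, one_mul, h.bP, smul_zero, add_zero]
  have S0 : ∀ z : B, (A • (1 : B) + A' • c) * (A • (1 : B) + A' • b) * (P * z) =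
      (A ^ 2) • (P * z) + c * P * z := by
    intro z
    rw [← mul_assoc, mul_assoc (A • (1 : B) + A' • c), bs, mul_smul_comm, smul_mul_assoc, add_mul,
      add_mul, smul_mul_assoc, smul_mul_assoc, smul_mul_assoc, smul_mul_assoc, one_mul, smul_add,
      smul_smul, smul_smul, hA, one_smul, pow_two]
  have e1 : (A • (1 : B) + A' • c) * (A • (1 : B) + A' • b) * (P * c) =
      (A ^ 2) • (P * c) + (-2 : ℂ) • (a * c) := by
    rw [S0, h.cPc]
  have e3 : (A • (1 : B) + A' • c) * (A • (1 : B) + A' • b) * (P * (c * P)) =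
      (A ^ 2) • (P * (c * P)) := by
    have := h.cPcP
    rw [S0, mul_assoc, this, add_zero]
  have e5 : (A • (1 : B) + A' • c) * (A • (1 : B) + A' • b) * (P * (c * b)) =
      (A ^ 2) • (P * (c * b)) + (-2 : ℂ) • (a * (c * b)) := by
    rw [S0]
    congr 1
    rw [← mul_assoc, h.cPc, smul_mul_assoc, mul_assoc]
  have hbcb : ∀ z : B, b * (c * (b * z)) = b * z := fun z => by
    rw [← mul_assoc, ← mul_assoc, h.bcb]
  have hcbc : ∀ z : B, c * (b * (c * z)) = c * z := fun z => by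
    rw [← mul_assoc, ← mul_assoc, h.cbc]
  have hcc : ∀ z : B, c * (c * z) = 0 := fun z => by rw [← mul_assoc, h.cc, zero_mul]
  have hbb : ∀ z : B, b * (b * z) = 0 := fun z => by rw [← mul_assoc, h.bb, zero_mul]
  have e2 : (A • (1 : B) + A' • c) * (A • (1 : B) + A' • b) * (c * P) = b * (c * P) := by
    simp only [add_mul, mul_add, smul_mul_assoc, mul_smul_comm, one_mul, mul_one, mul_assoc,
      hcbc, hcc, smul_zero, add_zero, smul_add, smul_smul]
    match_scalars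
    · linear_combination hA2
    · linear_combination hA
  have e4 : (A • (1 : B) + A' • c) * (A • (1 : B) + A' • b) * (b * (c * P)) =
      (A ^ 2) • (b * (c * P)) + c * P := by
    simp only [add_mul, mul_add, smul_mul_assoc, mul_smul_comm, one_mul, mul_one, mul_assoc,
      hcbc, hbb, smul_zero, add_zero, smul_add, smul_smul, mul_zero]
    match_scalars
    · ring
    · linear_combination hA
  rw [mul_sub, mul_sub, mul_smul_comm, mul_smul_comm, mul_smul_comm, mul_add, mul_sub, e1, e2, e3,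
    e4, e5]
  simp only [map_sub, map_add, map_smul, v1, v2, v3, v4, v5, hv.vac, hv.vacb, smul_eq_mul]
  ring

end alg

theorem e8_dlz : e8 dl = 0 := e8_dl

theorem vals : Vals Qs g0 g1 g2 where
  va := by unfold g0; rw [Qs_rd, SN_E0, map_pow, e8_dl]; norm_num
  vc := by unfold g2; rw [Qs_rd, SN_E2, e8_dl]
  vac := by unfold g0 g2; rw [← map_mul, Qs_rd, SN_E02, e8_dl]
  vab := by unfold g0 g1; rw [← map_mul, Qs_rd, SN_E01, e8_dl]
  vba := by unfold g0 g1; rw [← map_mul, Qs_rd, SN_E10, e8_dl]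
  vbc := by unfold g1 g2; rw [← map_mul, Qs_rd, SN_E12, map_one]
  vcb := by unfold g1 g2; rw [← map_mul, Qs_rd, SN_E21, map_one]
  vabc := by unfold g0 g1 g2; rw [← map_mul, ← map_mul, Qs_rd, SN_E012, map_one]
  vcba := by unfold g0 g1 g2; rw [← map_mul, ← map_mul, Qs_rd, SN_E210, map_one]
  vbac := by unfold g0 g1 g2; rw [← map_mul, ← map_mul, Qs_rd, SN_E102, map_one]
  vacb := by unfold g0 g1 g2; rw [← map_mul, ← map_mul, Qs_rd, SN_E021, map_one]
  vbacb := by
    unfold g0 g1 g2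
    rw [← map_mul, ← map_mul, ← map_mul, Qs_rd, SN_E1021, map_one]

end Pool.Agent.Helper52_KD
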