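import Pool.Agent.Helper52_CV.Ring
import Pool.Agent.Helper52_KD.Val
import Pool.Agent.Helper52_KD.Grad
import Pool.Agent.Y463.KN.Basic

/-!
# Proper knotoids
-/

set_option autoImplicit false

namespace Pool.Agent.Helper52_KD

open Finset LaurentPolynomial Pool.Agent.H891R2.Jones Pool.Agent.W639.RB Pool.Agent.Y463.SK
  Pool.Agent.Helper52_CV Pool.Agent.H832R3.TW Pool.Agent.Y463.KN
open Pool.Agent.Y463.MP hiding io

/-- the braid `σ_2 σ_1` -/
def b1 : List (Letter 4) := [(true, 2), (true, 1)]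

theorem zz_b1 : zz b1 = ((T 1 : ℤ[T;T⁻¹]) • (1 : TLZ 4) + (T (-1) : ℤ[T;T⁻¹]) • EZ 4 2) *
    ((T 1 : ℤ[T;T⁻¹]) • (1 : TLZ 4) + (T (-1) : ℤ[T;T⁻¹]) • EZ 4 1) := by
  unfold b1
  rw [zz_cons, zz_single]
  show sZ 4 (true, 2) * sZ 4 (true, 1) = _
  rw [sZ_true, sZ_true]

theorem rd_b1 : rd (zz b1) = ((z8 : ℂ) • (1 : T8) + (z8 : ℂ)⁻¹ • g2) *
    ((z8 : ℂ) • (1 : T8) + (z8 : ℂ)⁻¹ • g1) := by
  rw [zz_b1, map_mul, map_add, map_add, rd_smul, rd_smul, rd_smul,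
    map_one, e8_T1, e8_Tm1]
  rfl

theorem SN_b1 : SN (zz b1) = T 6 := by
  have h1 : zz b1 = (T 1 ^ 2 : ℤ[T;T⁻¹]) • (1 : TLZ 4) + (T 1 * T (-1) : ℤ[T;T⁻¹]) • EZ 4 1 +
      (T 1 * T (-1) : ℤ[T;T⁻¹]) • EZ 4 2 + (T (-1) ^ 2 : ℤ[T;T⁻¹]) • (EZ 4 2 * EZ 4 1) := by
    rw [zz_b1]
    simp only [mul_add, add_mul, smul_mul_assoc, mul_smul_comm, one_mul, mul_one]
    module
  rw [h1]
  simp only [LinearMap.map_add, LinearMap.map_smul, SN_one, SN_E1, SN_E2, SN_E21, smul_eq_mul]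
  have e : (T 6 : ℤ[T;T⁻¹]) = T 1 ^ 6 := by rw [T_pow]; norm_num
  rw [e]
  unfold dl
  have := TT
  generalize (T 1 : ℤ[T;T⁻¹]) = a at *
  generalize (T (-1) : ℤ[T;T⁻¹]) = a' at *
  linear_combination (2 * a ^ 3 * a' + 2 * a ^ 2 + a * a' ^ 3 + a' ^ 2 - 2 * a ^ 2 - 2 * a' ^ 2) * this

theorem writhe_b1 : (dia snail b1).writhe = 2 := by
  have h := (draw_up (toN b1) snail (toN_lt b1) (fun _ => rfl)).2
  have h2 : (dia snail b1).writhe = owr (draw snail (toN b1)) := rfl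
  have h3 : owr snail = 0 := rfl
  rw [h2, h, h3]
  rfl

theorem fPoly_b1 : (dia snail b1).fPoly = 1 := by
  unfold Diagram.fPoly
  rw [writhe_b1, bracket_dia (by norm_num)]
  have h : PhiS (by norm_num) snail (zz b1) = T 6 := SN_b1
  rw [h, if_pos (by decide)]
  have : (T (-3 * 2) : ℤ[T;T⁻¹]) * T 6 = 1 := by rw [← T_add]; norm_num
  linear_combination this

/-! ### the leading term -/

theorem z8_sq_im : ((z8 : ℂ) ^ 2).im ≠ 0 := by
  intro h
  have h1 : ((z8 : ℂ) ^ 2) * ((z8 : ℂ) ^ 2) = -1 := by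
    rw [← pow_add]; exact z8_four
  have h2 := congrArg Complex.re h1
  rw [Complex.mul_re, h, mul_zero, sub_zero] at h2
  norm_num at h2
  nlinarith [sq_nonneg ((z8 : ℂ) ^ 2).re]

theorem value_ne (v : List (Letter 4)) (hv : Good v) (i : ℕ) (Z : TLZ 4)
    (hZ : rd Z = Wf (rd (zz v) * P8 * rd (zz (invW v))) (2 * i + 1)) :
    (e8 (T (-6) * SN (zz b1 * Z))).im ≠ 0 := by
  obtain ⟨κ, p, q, r, u, hκ, hr, hdet, hg⟩ := hv
  have hdet' : (p : ℂ) * u - q * r = 1 := by exact_mod_cast hdet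
  have hg' := rd_inv_of v hκ hdet' hg
  have h1 : rd (zz v) * P8 * rd (zz (invW v)) =
      Gm g1 g2 1 p (-(io * q)) (io * r) u * P8 * Gm g1 g2 1 u (-(io * -q)) (-(io * r)) p := by
    rw [hg, hg']
    have : io * -(r : ℂ) = -(io * r) := by ring
    unfold GM
    rw [this, smul_mul_assoc, smul_mul_assoc, mul_smul_comm, smul_smul, mul_inv_cancel₀ hκ, one_smul]
  have h2 := TLz.value tlz vals z8_mul z8_four (p : ℂ) (-(io * q)) (io * r) u (-(io * -q))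
  have h3 : e8 (SN (zz b1 * Z)) = 2 * (io * r) * (z8 : ℂ) ^ 2 := by
    rw [← Qs_rd, map_mul, hZ, Wf_odd, h1, rd_b1]
    exact h2
  have h4 : e8 (T (-6)) = (z8 : ℂ) ^ 2 := by
    have e : (T (-6) : ℤ[T;T⁻¹]) = T (-1) ^ 6 := by rw [T_pow]; norm_num
    have e2 : (((z8 : ℂ)⁻¹) ^ 6) = (((z8 : ℂ)⁻¹) ^ 2) ^ 3 := by ring
    rw [e, map_pow, e8_Tm1, e2, z8_inv_sq]
    have := z8_four
    linear_combination (-(z8 : ℂ) ^ 2) * this
  have h5 : e8 (T (-6) * SN (zz b1 * Z)) = ((-2 * r : ℤ) : ℂ) * (z8 : ℂ) ^ 2 := by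
    rw [map_mul, h3, h4]
    unfold io
    have := z8_four
    push_cast
    linear_combination (2 * (r : ℂ) * (z8 : ℂ) ^ 2) * this
  rw [h5, Complex.mul_im, Complex.intCast_im, zero_mul, add_zero, Complex.intCast_re]
  refine mul_ne_zero ?_ z8_sq_im
  rw [Int.cast_ne_zero]
  omega

theorem fPoly_kn {s : ℕ} {d : ℤ[T;T⁻¹]} {v : List (Letter 4)} (hd : Wk d v) (hv : Good v)
    (i : ℕ) : ∃ G : ℤ[T;T⁻¹], (e8 G).im ≠ 0 ∧
    (dia snail (b1 ++ wU s v (2 * i + 2))).fPoly = 1 + xx s ^ (2 * i + 2) * G := by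
  obtain ⟨Z, h1, h2⟩ := wU_lead s v (2 * i + 1)
  refine ⟨T (-6) * SN (zz b1 * Z), value_ne v hv i Z h2, ?_⟩
  have h4 := (st_wU (s := s) hd (2 * i + 1)).cost
  have hw : (dia snail (b1 ++ wU s v (2 * i + 2))).writhe = 2 := by
    have := writhe_dia snail b1
    rw [writhe_b1] at this
    rw [writhe_dia, toN_append, costS_append, h4, add_zero]
    exact this.symm
  have hb : (dia snail (b1 ++ wU s v (2 * i + 2))).bracket =
      T 6 + xx s ^ (2 * i + 2) * SN (zz b1 * Z) := by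
    rw [bracket_dia (by norm_num), zz_append]
    show SN (zz b1 * zz (wU s v (2 * i + 1 + 1))) = _
    rw [h1, mul_add, mul_one, map_add, SN_b1, mul_smul_comm, map_smul, smul_eq_mul]
  unfold Diagram.fPoly
  rw [hw, hb, if_pos (by decide)]
  have : (T (-3 * 2) : ℤ[T;T⁻¹]) * T 6 = 1 := by rw [← T_add]; norm_num
  have e : (T (-3 * 2) : ℤ[T;T⁻¹]) = T (-6) := by norm_num
  rw [e] at this ⊢
  linear_combination this

theorem kn_inj {s : ℕ} (hs : 1 ≤ s) {d : ℤ[T;T⁻¹]} {v : List (Letter 4)} (hd : Wk d v)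
    (hv : Good v) (k : ℕ) : Function.Injective
    (fun i : ℕ => (dia snail (b1 ++ wU s v (2 * (i + k) + 2))).fPoly) := by
  refine Function.Injective.of_lt_imp_ne fun i i' hi h => ?_
  obtain ⟨H, hH, h1⟩ := fPoly_kn (s := s) hd hv (i + k)
  obtain ⟨H', hH', h2⟩ := fPoly_kn (s := s) hd hv (i' + k)
  rw [h1, h2] at h
  obtain ⟨d, rfl⟩ := Nat.exists_eq_add_of_lt hi
  have e : xx s ^ (2 * (i + d + 1 + k) + 2) = xx s ^ (2 * (i + k) + 2) * xx s ^ (2 * d + 2) := by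
    rw [← pow_add]; congr 1; ring
  have h3 : xx s ^ (2 * (i + k) + 2) * (H - xx s ^ (2 * d + 2) * H') = 0 := by
    rw [e] at h
    linear_combination h
  rcases mul_eq_zero.1 h3 with h4 | h4
  · exact pow_ne_zero _ (xx_ne s hs) h4
  · apply hH
    rw [sub_eq_zero] at h4
    rw [h4, map_mul, map_pow, e8_xx, zero_pow (by omega), zero_mul]
    rfl

theorem knotoid_snail : IsKnotoid snail.close := by
  refine ⟨(0 : Fin 5), (4 : Fin 5), (by decide : (0 : Fin 5) ≠ 4), ?_⟩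
  intro p
  change Fin 5 at p
  fin_cases p <;> exact ⟨rfl, rfl⟩

theorem cycle_b1 (u : List (Letter 4)) (h : permL (toN u) = 1) :
    ∀ x y, (permW (b1 ++ u) * Equiv.swap 0 1).SameCycle x y := by
  rw [Pool.Agent.Helper52_CV.permW_append, permW_one u h, mul_one]
  have h1 : (permW b1 * Equiv.swap (0 : Fin 4) 1) 0 = 3 := by decide
  have h2 : (permW b1 * Equiv.swap (0 : Fin 4) 1) 3 = 2 := by decide
  have h3 : (permW b1 * Equiv.swap (0 : Fin 4) 1) 2 = 1 := by decide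
  have s1 : (permW b1 * Equiv.swap 0 1).SameCycle 0 3 := ⟨1, by rw [zpow_one]; exact h1⟩
  have s2 : (permW b1 * Equiv.swap 0 1).SameCycle 3 2 := ⟨1, by rw [zpow_one]; exact h2⟩
  have s3 : (permW b1 * Equiv.swap 0 1).SameCycle 2 1 := ⟨1, by rw [zpow_one]; exact h3⟩
  have h0 : ∀ j : Fin 4, (permW b1 * Equiv.swap 0 1).SameCycle 0 j := by
    intro j
    fin_cases j
    · exact Equiv.Perm.SameCycle.refl _ _
    · exact (s1.trans s2).trans s3
    · exact s1.trans s2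
    · exact s1
  intro i j
  exact (h0 i).symm.trans (h0 j)

/-! ### the result -/

theorem main_kn (N k : ℕ) (hN : 1 ≤ N) (W : List (List (Letter 3)))
    (hW : ∀ w ∈ W, expSum w = 0 ∧ 3 ≤ |((w.map slz).prod).trace|) :
    ∃ u : ℕ → List (Letter 4),
    (∀ i, IsPure (u i)) ∧
    (∀ i, IsKnotoid (dia snail (b1 ++ u i)) ∧
      (∀ x y, (permW (b1 ++ u i) * Equiv.swap 0 1).SameCycle x y) ∧
      (∃ n : ℤ, ¬ ((4 : ℤ) ∣ n) ∧ (dia snail (b1 ++ u i)).fPoly.coeff n ≠ 0) ∧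
      Md N W ^ k ∣ (dia snail (b1 ++ u i)).fPoly - 1) ∧
    Function.Injective (fun i => (dia snail (b1 ++ u i)).fPoly) := by
  set L : List (ℤ[T;T⁻¹] × List (Letter 4)) :=
    (yy N, wZ N) :: W.map (fun w => (Sg (burauTrace w) (6 * N), wP N w)) with hLdef
  have hL : ∀ x ∈ L, Wk x.1 x.2 ∧ Good x.2 := by
    intro x hx
    rw [hLdef, List.mem_cons] at hx
    rcases hx with rfl | hx
    · exact ⟨wk_two false 2, good_Z N hN⟩
    · obtain ⟨w, hw, rfl⟩ := List.mem_map.1 hx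
      exact ⟨wk_P N w (hW w hw).1, good_P N hN w (hW w hw).2⟩
  have hprod : (L.map Prod.fst).prod = yy N * (W.map fun w => Sg (burauTrace w) (6 * N)).prod := by
    rw [hLdef, List.map_cons, List.prod_cons, List.map_map]
    rfl
  obtain ⟨v, hd, hv⟩ := exist_pow L hL (yy N) (wZ N) (wk_two false 2) (good_Z N hN) k
  rw [hprod] at hd
  have hdvd : ∀ j : ℕ, k ≤ j → Md N W ^ k ∣
      xx N ^ j * ((yy N * (W.map fun w => Sg (burauTrace w) (6 * N)).prod) ^ k * yy N) := by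
    intro j hj
    obtain ⟨j', rfl⟩ := Nat.exists_eq_add_of_le hj
    have e : xx N ^ (k + j') *
        ((yy N * (W.map fun w => Sg (burauTrace w) (6 * N)).prod) ^ k * yy N) =
        ((yy N * xx N) * (W.map fun w => Sg (burauTrace w) (6 * N)).prod) ^ k *
          (xx N ^ j' * yy N) := by
      rw [mul_pow, mul_pow, mul_pow, pow_add]
      ring
    rw [e]
    refine Dvd.dvd.mul_right (pow_dvd_pow_of_dvd ?_ k) _
    exact mul_dvd_mul ((dvd_one_sub N N ⟨6, by ring⟩).trans (dvd_yx N)) (prod_dvd N W)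
  have hst : ∀ i : ℕ, St (xx N ^ (2 * (i + k) + 2) *
      ((yy N * (W.map fun w => Sg (burauTrace w) (6 * N)).prod) ^ k * yy N))
      (wU N v (2 * (i + k) + 2)) := fun i => st_wU (s := N) hd (2 * (i + k) + 1)
  refine ⟨fun i => wU N v (2 * (i + k) + 2), fun i => permW_one _ (hst i).perm,
    fun i => ⟨knotoid_dia snail knotoid_snail _ (fun _ => rfl), cycle_b1 _ (hst i).perm, ?_, ?_⟩,
    kn_inj hN hd hv k⟩
  · obtain ⟨G, hG, hf⟩ := fPoly_kn (s := N) hd hv (i + k)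
    exact exists_coeff ((lin_xx N).pow _) (pow_ne_zero _ (xx_ne N hN)) hf hG
  · obtain ⟨G, hG⟩ := fPoly_move (by norm_num) (hst i) snail b1 []
    rw [List.append_nil, List.append_nil, fPoly_b1] at hG
    rw [hG, add_sub_cancel_left]
    exact Dvd.dvd.mul_right (hdvd _ (by omega)) _

theorem main_kn2 (N k : ℕ) (hN : 1 ≤ N) (W : List (List (Letter 3)))
    (hW : ∀ w ∈ W, expSum w = 0 ∧ 3 ≤ |((w.map slz).prod).trace|) :
    ∃ u : ℕ → List (Letter 4),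
    (∀ i, IsPure (u i)) ∧
    (∀ i, IsKnotoid (dia snail (b1 ++ u i)) ∧
      (∀ x y, (permW (b1 ++ u i) * Equiv.swap 0 1).SameCycle x y) ∧
      (∃ n : ℤ, ¬ ((4 : ℤ) ∣ n) ∧ (dia snail (b1 ++ u i)).fPoly.coeff n ≠ 0) ∧
      Md N W ^ k ∣ (dia snail (b1 ++ u i)).fPoly - 1 ∧
      ∀ (R : Type) [CommRing R] [Finite R] (φ : ℤ[T;T⁻¹] →+* R), Nat.card R ≤ N →
        φ (dia snail (b1 ++ u i)).fPoly = 1) ∧
    Function.Injective (fun i => (dia snail (b1 ++ u i)).fPoly) := by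
  obtain ⟨u, h1, h3, h4⟩ := main_kn (N * N.factorial) (k + 1)
    (Nat.mul_pos hN (Nat.factorial_pos N)) W hW
  have hd : Md N W ^ k ∣ Md (N * N.factorial) W ^ (k + 1) :=
    (pow_dvd_pow_of_dvd (Md_dvd N _ W) k).trans (pow_dvd_pow _ (Nat.le_succ k))
  refine ⟨u, h1, fun i => ⟨(h3 i).1, (h3 i).2.1, (h3 i).2.2.1, hd.trans (h3 i).2.2.2,
    fun R _ _ φ hR => ?_⟩, h4⟩
  obtain ⟨c, hc⟩ := (h3 i).2.2.2
  have h5 := congrArg φ hc
  rw [map_sub, map_mul, map_pow, ring_zero N _ W R hR φ (Dvd.intro_left _ rfl),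
    zero_pow (Nat.succ_ne_zero k), zero_mul, map_one] at h5
  exact sub_eq_zero.1 h5

end Pool.Agent.Helper52_KD
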